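import Pool.Agent.W788.BK.Stm

/-! The low frequency part of the potential is small. -/

set_option autoImplicit false
set_option linter.unusedSectionVars false

open scoped BigOperators Matrix
open MeasureTheory ProbabilityTheory

namespace Pool.Agent.W975.BK

open Pool.Agent.W788.MFP.Four (T e NN adj K ft Op q)
open Pool.Agent.W788.BK

theorem one_side {m : Type} [Fintype m] [DecidableEq m] (μ : Measure ℝ) [IsProbabilityMeasure μ]
    (β τ : ℝ) (hβ : 0 < β) (hb : ∀ᵐ s ∂μ, |s| ≤ β) (h0 : ∫ s, s ∂μ = 0) (hτ : 0 < τ)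
    (κ : m → ℝ) :
    (PP m μ).real {V | τ ≤ ∑ y, V y * κ y} ≤
      Real.exp (-(τ ^ 2 / (2 * (β ^ 2 * ∑ y, κ y ^ 2)))) := by
  have hind : iIndepFun (fun (y : m) (V : m → ℝ) => V y * κ y) (PP m μ) :=
    iIndepFun_pi (X := fun y (s : ℝ) => s * κ y) (fun y => by fun_prop)
  have hsub : ∀ y ∈ (Finset.univ : Finset m),
      HasSubgaussianMGF (fun V : m → ℝ => V y * κ y)
        ((‖β * |κ y| - -(β * |κ y|)‖₊ / 2) ^ 2) (PP m μ) := by
    intro y _
    have : IsProbabilityMeasure (PP m μ) := by unfold PP; infer_instance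
    apply hasSubgaussianMGF_of_mem_Icc_of_integral_eq_zero
    · exact ((measurable_pi_apply y).mul_const _).aemeasurable
    · have h1 : ∀ᵐ V ∂(PP m μ), |V y| ≤ β :=
        (measurePreserving_eval (fun _ : m => μ) y).quasiMeasurePreserving.ae hb
      filter_upwards [h1] with V hV
      have h2 : |V y * κ y| ≤ β * |κ y| := by
        rw [abs_mul]
        exact mul_le_mul_of_nonneg_right hV (abs_nonneg _)
      exact abs_le.1 h2
    · rw [integral_mul_const]
      have h2 : ∫ V, V y ∂(PP m μ) = ∫ s, s ∂μ := by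
        unfold PP
        exact integral_comp_eval (μ := fun _ : m => μ) (f := fun s : ℝ => s)
          aestronglyMeasurable_id
      rw [h2, h0, zero_mul]
  have h := HasSubgaussianMGF.measure_sum_ge_le_of_iIndepFun hind hsub hτ.le
  refine h.trans (le_of_eq ?_)
  congr 1
  have hc : (((∑ i : m, (‖β * |κ i| - -(β * |κ i|)‖₊ / 2) ^ 2 : NNReal)) : ℝ) =
      β ^ 2 * ∑ y, κ y ^ 2 := by
    push_cast
    rw [Finset.mul_sum]
    refine Finset.sum_congr rfl fun y _ => ?_
    rw [Real.norm_eq_abs]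
    have : β * |κ y| - -(β * |κ y|) = 2 * (β * |κ y|) := by ring
    rw [this, abs_of_nonneg (by positivity)]
    rw [mul_div_cancel_left₀ _ (by norm_num : (2 : ℝ) ≠ 0), mul_pow, sq_abs]
  rw [hc, neg_div]

theorem hi_even {d L : ℕ} [NeZero L] (θ : ℝ) (Q : T d L) : hi θ (-Q) = hi θ Q := by
  have hcr : ∀ q : ZMod L, cr (-q) = cr q := by
    intro q
    unfold cr
    rw [AddChar.map_neg_eq_conj]
    simp
  have hL : Low θ (-Q) ↔ Low θ Q := by
    unfold Low
    simp only [Pi.neg_apply, hcr]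
  unfold hi
  by_cases h : Low θ Q
  · rw [if_pos h, if_pos (hL.2 h)]
  · rw [if_neg h, if_neg (fun h' => h (hL.1 h'))]

theorem hi_sq {d L : ℕ} [NeZero L] (θ : ℝ) (Q : T d L) : (1 - hi θ Q) ^ 2 = 1 - hi θ Q := by
  unfold hi
  split_ifs <;> norm_num

theorem sup : S_SUP := by
  intro d L _ μ _ β θ τ hβ hb h0 hτ
  have : IsProbabilityMeasure (PP (T d L) μ) := by unfold PP; infer_instance
  have hN : 0 < NN d L := Pool.Agent.W788.MFP.Four.NN_pos
  set S := ∑ Q : T d L, (1 - hi θ Q) with hS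
  have hκ : ∀ x : T d L, ∑ y, K (fun Q => 1 - hi θ Q) (x - y) ^ 2 = (NN d L)⁻¹ * S := by
    intro x
    rw [Pool.Agent.W788.MFP.Four.K_sq _ (fun k => by simp only [hi_even])]
    congr 1
    exact Finset.sum_congr rfl fun Q _ => hi_sq θ Q
  have hexp : ∀ c : ℝ, c = τ ^ 2 / (2 * (β ^ 2 * ((NN d L)⁻¹ * S))) →
      c = τ ^ 2 * NN d L / (2 * β ^ 2 * S) := by
    intro c hc
    rw [hc]
    by_cases hS0 : S = 0
    · rw [hS0]; simp
    · field_simp
  have hx : ∀ x : T d L, (PP (T d L) μ).real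
      {V | τ < |∑ y, V y * K (fun Q => 1 - hi θ Q) (x - y)|} ≤
      2 * Real.exp (-(τ ^ 2 * NN d L / (2 * β ^ 2 * S))) := by
    intro x
    have h1 := one_side μ β τ hβ hb h0 hτ (fun y => K (fun Q => 1 - hi θ Q) (x - y))
    have h2 := one_side μ β τ hβ hb h0 hτ (fun y => -K (fun Q => 1 - hi θ Q) (x - y))
    simp only [neg_sq] at h2
    rw [hκ x, hexp _ rfl] at h1 h2
    have h3 : {V : T d L → ℝ | τ < |∑ y, V y * K (fun Q => 1 - hi θ Q) (x - y)|} ⊆
        {V | τ ≤ ∑ y, V y * K (fun Q => 1 - hi θ Q) (x - y)} ∪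
        {V | τ ≤ ∑ y, V y * -K (fun Q => 1 - hi θ Q) (x - y)} := by
      intro V hV
      rw [Set.mem_setOf_eq, lt_abs] at hV
      rcases hV with hV | hV
      · left; exact hV.le
      · right
        rw [Set.mem_setOf_eq]
        simp only [mul_neg, Finset.sum_neg_distrib]
        exact hV.le
    calc _ ≤ _ := measureReal_mono h3
      _ ≤ _ := measureReal_union_le _ _
      _ ≤ _ := add_le_add h1 h2
      _ = _ := by ring
  have hun : {V : T d L → ℝ | ∃ x : T d L, τ < |∑ y, V y * K (fun Q => 1 - hi θ Q) (x - y)|} =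
      ⋃ x : T d L, {V | τ < |∑ y, V y * K (fun Q => 1 - hi θ Q) (x - y)|} := by
    ext V; simp
  rw [hun]
  calc _ ≤ ∑ x : T d L, (PP (T d L) μ).real
        {V | τ < |∑ y, V y * K (fun Q => 1 - hi θ Q) (x - y)|} := measureReal_iUnion_fintype_le _
    _ ≤ ∑ _x : T d L, 2 * Real.exp (-(τ ^ 2 * NN d L / (2 * β ^ 2 * S))) :=
        Finset.sum_le_sum fun x _ => hx x
    _ = _ := by
        rw [Finset.sum_const, Finset.card_univ, nsmul_eq_mul, Pool.Agent.W788.MFP.Four.card_T]
        ring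

end Pool.Agent.W975.BK
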